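import Mathlib

/-!
# Retracts via commuting closure and anticlosure operators

A complete lattice has property (C) if and only if it is modular, and a nonempty ordered set without
infinite chains (in particular a finite one) has property (C) if and only if it is a modular lattice.
Without the condition that the operators commute, the answer is that the set is a complete lattice.
-/

set_option autoImplicit false

namespace Pool.Agent.Results.MP_017791_co.ModularLattices

open Set

section Defs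

variable {P : Type} [PartialOrder P]

/-- `r` is a retraction. -/
def IsRetraction (r : P → P) : Prop := Monotone r ∧ ∀ x, r (r x) = r x

/-- `R` is a retract of `P`. -/
def IsRetract (R : Set P) : Prop := ∃ r : P → P, IsRetraction r ∧ R = range r

/-- `φ` is a closure operator. -/
def IsClosureOp (φ : P → P) : Prop := IsRetraction φ ∧ ∀ x, x ≤ φ x

/-- `ω` is an anticlosure operator. -/
def IsAnticlosureOp (ω : P → P) : Prop := IsRetraction ω ∧ ∀ x, ω x ≤ x

/-- The set `R` is given by the closure operator `φ` and the anticlosure operator `ω`. -/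
def Describes (φ ω : P → P) (R : Set P) : Prop :=
  IsClosureOp φ ∧ IsAnticlosureOp ω ∧ R = range (φ ∘ ω) ∧ R = range (ω ∘ φ) ∧
    R = range φ ∩ range ω

end Defs

/-- Property (C). -/
def PropertyC (P : Type) [PartialOrder P] : Prop :=
  ∀ R : Set P, R.Nonempty →
    (IsRetract R ↔ ∃ φ ω : P → P, φ ∘ ω = ω ∘ φ ∧ Describes φ ω R)

/-- Property (C) without the requirement that the operators commute. -/
def PropertyCWeak (P : Type) [PartialOrder P] : Prop :=
  ∀ R : Set P, R.Nonempty → (IsRetract R ↔ ∃ φ ω : P → P, Describes φ ω R)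

/-- Every subset has a least upper bound (that is, `P` is a complete lattice). -/
def IsComplete (P : Type) [PartialOrder P] : Prop := ∀ S : Set P, ∃ s, IsLUB S s

/-- The modular law: `a ∨ (b ∧ c) = (a ∨ b) ∧ c` whenever `a ≤ c` (and these elements exist). -/
def IsModular (P : Type) [PartialOrder P] : Prop :=
  ∀ a b c m j j' m' : P, a ≤ c → IsGLB {b, c} m → IsLUB {a, m} j → IsLUB {a, b} j' →
    IsGLB {j', c} m' → j = m'

section General

variable {P : Type} [PartialOrder P]

/-- Sets which are given by a closure and an anticlosure operator are retracts. -/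
lemma Describes.isRetract {φ ω : P → P} {R : Set P} (h : Describes φ ω R) : IsRetract R := by
  obtain ⟨⟨⟨hφ1, hφ2⟩, hφ3⟩, ⟨⟨hω1, hω2⟩, hω3⟩, h1, h2, h3⟩ := h
  refine ⟨φ ∘ ω, ⟨hφ1.comp hω1, fun x => ?_⟩, h1⟩
  have hx : φ (ω x) ∈ range φ ∩ range ω := by
    rw [← h3, h1]
    exact ⟨x, rfl⟩
  obtain ⟨⟨y, hy⟩, ⟨z, hz⟩⟩ := hx
  show φ (ω (φ (ω x))) = φ (ω x)
  have h4 : ω (φ (ω x)) = φ (ω x) := by rw [← hz, hω2]
  rw [h4, ← hy, hφ2]

/-- If the lower set condition of the modular law fails, property (C) fails. -/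
lemma not_propertyC (a b y : P) (hab : a < b) (h1 : ∀ w, w ≤ y → w ≤ b → w ≤ a)
    (h2 : ∀ w, y ≤ w → a ≤ w → b ≤ w) : ¬ PropertyC P := by
  classical
  intro hC
  have hret : IsRetract ({a, b} : Set P) := by
    refine ⟨fun x => if b ≤ x then b else a, ⟨?_, ?_⟩, ?_⟩
    · intro x x' hx
      by_cases h : b ≤ x
      · simp only [if_pos h, if_pos (h.trans hx), le_refl]
      · simp only [if_neg h]
        split_ifs
        · exact hab.le
        · exact le_rfl
    · intro x
      by_cases h : b ≤ x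
      · simp only [if_pos h, if_pos le_rfl]
      · simp only [if_neg h, if_neg (not_le_of_gt hab)]
    · ext x
      constructor
      · rintro (rfl | rfl)
        · exact ⟨x, by simp only [if_neg (not_le_of_gt hab)]⟩
        · exact ⟨x, by simp only [if_pos le_rfl]⟩
      · rintro ⟨z, rfl⟩
        by_cases h : b ≤ z
        · simp only [if_pos h]
          exact Or.inr rfl
        · simp only [if_neg h]
          exact Or.inl rfl
  obtain ⟨φ, ω, hcomm, ⟨⟨hφ1, hφ2⟩, hφ3⟩, ⟨⟨hω1, hω2⟩, hω3⟩, e1, e2, e3⟩ :=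
    (hC _ ⟨a, Or.inl rfl⟩).mp hret
  have hfix : ∀ x ∈ ({a, b} : Set P), φ x = x ∧ ω x = x := by
    intro x hx
    rw [e3] at hx
    obtain ⟨⟨u, hu⟩, ⟨v, hv⟩⟩ := hx
    exact ⟨by rw [← hu, hφ2], by rw [← hv, hω2]⟩
  have hy : φ (ω y) ∈ ({a, b} : Set P) := by
    rw [e1]
    exact ⟨y, rfl⟩
  rcases hy with hy | hy
  · have h3 : ω (φ y) = a := by
      have := congrFun hcomm y
      simp only [Function.comp] at this
      rw [← this, hy]
    have h4 : b ≤ φ y := h2 _ (hφ3 y) (by rw [← h3]; exact hω3 _)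
    have h5 : ω b ≤ ω (φ y) := hω1 h4
    rw [h3, (hfix b (Or.inr rfl)).2] at h5
    exact absurd h5 (not_le_of_gt hab)
  · have hy : φ (ω y) = b := hy
    have h4 : ω y ≤ a := h1 _ (hω3 y) (by rw [← hy]; exact hφ3 _)
    have h5 : φ (ω y) ≤ φ a := hφ1 h4
    rw [hy, (hfix a (Or.inl rfl)).1] at h5
    exact absurd h5 (not_le_of_gt hab)

/-- Property (C) implies the modular law. -/
lemma isModular_of_propertyC (hC : PropertyC P) : IsModular P := by
  intro a b c m j j' m' hac hm hj hj' hm'
  have hjm' : j ≤ m' := by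
    apply hm'.2
    rintro x (rfl | rfl)
    · apply hj.2
      rintro y (rfl | rfl)
      · exact hj'.1 (Or.inl rfl)
      · exact (hm.1 (Or.inl rfl)).trans (hj'.1 (Or.inr rfl))
    · apply hj.2
      rintro y (rfl | rfl)
      · exact hac
      · exact hm.1 (Or.inr rfl)
  by_contra hne
  refine not_propertyC j m' b (lt_of_le_of_ne hjm' hne) ?_ ?_ hC
  · intro w hw1 hw2
    have : w ≤ m := by
      apply hm.2
      rintro x (rfl | rfl)
      · exact hw1
      · exact hw2.trans (hm'.1 (Or.inr rfl))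
    exact this.trans (hj.1 (Or.inr rfl))
  · intro w hw1 hw2
    have : j' ≤ w := by
      apply hj'.2
      rintro x (rfl | rfl)
      · exact (hj.1 (Or.inl rfl)).trans hw2
      · exact hw1
    exact (hm'.1 (Or.inl rfl)).trans this

end General

/-! ### Complete lattices -/

section Complete

variable {L : Type} [CompleteLattice L]

/-- In a complete lattice every retract is described by a closure and an anticlosure operator. -/
lemma weak_of_complete (R : Set L) (hR : IsRetract R) : ∃ φ ω : L → L, Describes φ ω R := by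
  obtain ⟨r, ⟨hr1, hr2⟩, rfl⟩ := hR
  let ω : L → L := fun x => sSup {y | y ≤ x ∧ y ≤ r y}
  let φ : L → L := fun x => sInf {y | x ≤ y ∧ r y ≤ y}
  have hω1 : ∀ x, ω x ≤ x := fun x => sSup_le fun y hy => hy.1
  have hω2 : ∀ x, ω x ≤ r (ω x) := fun x => sSup_le fun y hy => hy.2.trans (hr1 (le_sSup hy))
  have hω3 : ∀ x, x ≤ r x → ω x = x := fun x hx => le_antisymm (hω1 x) (le_sSup ⟨le_rfl, hx⟩)
  have hφ1 : ∀ x, x ≤ φ x := fun x => le_sInf fun y hy => hy.1
  have hφ2 : ∀ x, r (φ x) ≤ φ x := fun x => le_sInf fun y hy => (hr1 (sInf_le hy)).trans hy.2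
  have hφ3 : ∀ x, r x ≤ x → φ x = x := fun x hx => le_antisymm (sInf_le ⟨le_rfl, hx⟩) (hφ1 x)
  have hωm : Monotone ω := by
    intro x y hxy
    exact sSup_le_sSup fun z hz => ⟨hz.1.trans hxy, hz.2⟩
  have hφm : Monotone φ := by
    intro x y hxy
    exact sInf_le_sInf fun z hz => ⟨hxy.trans hz.1, hz.2⟩
  -- the compositions
  have hφω : ∀ x, x ≤ r x → φ x = r x := by
    intro x hx
    apply le_antisymm
    · exact sInf_le ⟨hx, (hr2 x).le⟩
    · exact le_sInf fun y hy => (hr1 hy.1).trans hy.2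
  have hωφ : ∀ x, r x ≤ x → ω x = r x := by
    intro x hx
    apply le_antisymm
    · exact sSup_le fun y hy => hy.2.trans (hr1 hy.1)
    · exact le_sSup ⟨hx, (hr2 x).ge⟩
  have hfix : ∀ x ∈ range r, ω x = x ∧ φ x = x := by
    rintro x ⟨z, rfl⟩
    exact ⟨hω3 _ (hr2 z).ge, hφ3 _ (hr2 z).le⟩
  refine ⟨φ, ω, ⟨⟨hφm, fun x => hφ3 _ (hφ2 x)⟩, hφ1⟩, ⟨⟨hωm, fun x => hω3 _ (hω2 x)⟩, hω1⟩,
    ?_, ?_, ?_⟩
  · ext x
    constructor
    · intro hx
      exact ⟨x, by simp only [Function.comp, (hfix x hx).1, (hfix x hx).2]⟩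
    · rintro ⟨z, rfl⟩
      exact ⟨ω z, (hφω _ (hω2 z)).symm⟩
  · ext x
    constructor
    · intro hx
      exact ⟨x, by simp only [Function.comp, (hfix x hx).1, (hfix x hx).2]⟩
    · rintro ⟨z, rfl⟩
      exact ⟨φ z, (hωφ _ (hφ2 z)).symm⟩
  · ext x
    constructor
    · intro hx
      exact ⟨⟨x, (hfix x hx).2⟩, ⟨x, (hfix x hx).1⟩⟩
    · rintro ⟨⟨y, hy⟩, ⟨z, hz⟩⟩
      have h1 : r x ≤ x := by rw [← hy]; exact hφ2 y
      have h2 : x ≤ r x := by rw [← hz]; exact hω2 z
      exact ⟨x, le_antisymm h1 h2⟩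

/-- In a complete modular lattice every retract is described by a commuting pair. -/
lemma commuting_of_modular (hmod : ∀ a b c : L, a ≤ c → (a ⊔ b) ⊓ c ≤ a ⊔ (b ⊓ c)) (R : Set L)
    (hR : IsRetract R) : ∃ φ ω : L → L, φ ∘ ω = ω ∘ φ ∧ Describes φ ω R := by
  obtain ⟨r, ⟨hr1, hr2⟩, rfl⟩ := hR
  -- the first modification
  let F : L → L →o L := fun x => ⟨fun u => r (x ⊓ u), fun u v h => hr1 (inf_le_inf_left x h)⟩
  let ρ : L → L := fun x => OrderHom.gfp (F x)
  have hρ1 : ∀ x, r (x ⊓ ρ x) = ρ x := fun x => OrderHom.map_gfp (F x)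
  have hρ2 : ∀ x u, u ≤ r (x ⊓ u) → u ≤ ρ x := fun x u h => OrderHom.le_gfp (F x) h
  have hρm : Monotone ρ := by
    intro x y hxy
    apply hρ2
    calc ρ x = r (x ⊓ ρ x) := (hρ1 x).symm
      _ ≤ r (y ⊓ ρ x) := hr1 (inf_le_inf_right _ hxy)
  have hρr : ∀ x, ρ x ∈ range r := fun x => ⟨_, hρ1 x⟩
  have hρfix : ∀ x ∈ range r, ρ x = x := by
    rintro x ⟨z, rfl⟩
    apply le_antisymm
    · rw [← hρ1]
      exact (hr1 inf_le_left).trans (hr2 z).le
    · apply hρ2
      rw [inf_idem, hr2]
  have hρmeet : ∀ x, ρ (x ⊓ ρ x) = ρ x := by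
    intro x
    apply le_antisymm (hρm inf_le_left)
    apply hρ2
    rw [inf_assoc, inf_idem, hρ1]
  -- the second modification
  let G : L → L →o L := fun x => ⟨fun u => ρ (x ⊔ u), fun u v h => hρm (sup_le_sup_left h x)⟩
  let σ : L → L := fun x => OrderHom.lfp (G x)
  have hσ1 : ∀ x, ρ (x ⊔ σ x) = σ x := fun x => OrderHom.map_lfp (G x)
  have hσ2 : ∀ x u, ρ (x ⊔ u) ≤ u → σ x ≤ u := fun x u h => OrderHom.lfp_le (G x) h
  have hσm : Monotone σ := by
    intro x y hxy
    apply hσ2
    calc ρ (x ⊔ σ y) ≤ ρ (y ⊔ σ y) := hρm (sup_le_sup_right hxy _)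
      _ = σ y := hσ1 y
  have hσr : ∀ x, σ x ∈ range r := fun x => by rw [← hσ1]; exact hρr _
  have hσfix : ∀ x ∈ range r, σ x = x := by
    intro x hx
    apply le_antisymm
    · apply hσ2
      rw [sup_idem, hρfix x hx]
    · rw [← hσ1]
      calc x = ρ x := (hρfix x hx).symm
        _ ≤ ρ (x ⊔ σ x) := hρm le_sup_left
  have hσjoin : ∀ x, σ (x ⊔ σ x) = σ x := by
    intro x
    apply le_antisymm
    · apply hσ2
      rw [sup_assoc, sup_idem, hσ1]
    · exact hσm le_sup_left
  have hσmeet : ∀ x, σ (x ⊓ σ x) = σ x := by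
    intro x
    set s := σ x with hs
    set t := σ (x ⊓ s) with ht
    have hts : t ≤ s := by
      rw [ht, hs]
      exact hσm inf_le_left
    apply le_antisymm hts
    apply hσ2
    have h1 : ρ ((x ⊓ s) ⊔ t) = t := hσ1 (x ⊓ s)
    have h2 : ρ (x ⊔ t) ≤ s := by
      calc ρ (x ⊔ t) ≤ ρ (x ⊔ s) := hρm (sup_le_sup_left hts x)
        _ = s := hσ1 x
    calc ρ (x ⊔ t) = ρ ((x ⊔ t) ⊓ ρ (x ⊔ t)) := (hρmeet _).symm
      _ ≤ ρ ((x ⊔ t) ⊓ s) := hρm (inf_le_inf_left _ h2)
      _ ≤ ρ ((x ⊓ s) ⊔ t) := by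
          apply hρm
          rw [sup_comm x t, sup_comm (x ⊓ s) t]
          exact hmod t x s hts
      _ = t := h1
  have hφω : ∀ x, (x ⊓ σ x) ⊔ σ (x ⊓ σ x) = σ x := by
    intro x
    rw [hσmeet, sup_eq_right]
    exact inf_le_right
  have hωφ : ∀ x, (x ⊔ σ x) ⊓ σ (x ⊔ σ x) = σ x := by
    intro x
    rw [hσjoin, inf_eq_right]
    exact le_sup_right
  have hrange : range r = range σ := by
    ext x
    constructor
    · intro hx
      exact ⟨x, hσfix x hx⟩
    · rintro ⟨z, rfl⟩
      exact hσr z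
  refine ⟨fun x => x ⊔ σ x, fun x => x ⊓ σ x, ?_, ⟨⟨?_, ?_⟩, fun x => le_sup_left⟩,
    ⟨⟨?_, ?_⟩, fun x => inf_le_left⟩, ?_, ?_, ?_⟩
  · funext x
    simp only [Function.comp, hφω, hωφ]
  · intro x y hxy
    exact sup_le_sup hxy (hσm hxy)
  · intro x
    simp only [hσjoin, sup_assoc, sup_idem]
  · intro x y hxy
    exact inf_le_inf hxy (hσm hxy)
  · intro x
    simp only [hσmeet, inf_assoc, inf_idem]
  · rw [hrange]
    congr 1
    funext x
    simp only [Function.comp, hφω]
  · rw [hrange]
    congr 1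
    funext x
    simp only [Function.comp, hωφ]
  · ext x
    constructor
    · intro hx
      have h1 := hσfix x hx
      exact ⟨⟨x, by simp only [h1, sup_idem]⟩, ⟨x, by simp only [h1, inf_idem]⟩⟩
    · rintro ⟨⟨y, hy⟩, ⟨z, hz⟩⟩
      simp only at hy hz
      have h1 : σ x ≤ x := by
        rw [← hy, hσjoin]
        exact le_sup_right
      have h2 : x ≤ σ x := by
        rw [← hz, hσmeet]
        exact inf_le_right
      rw [hrange]
      exact ⟨x, le_antisymm h1 h2⟩

end Complete

/-- The complete lattice structure of a complete ordered set. -/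
@[reducible] noncomputable def completeLattice (P : Type) [inst : PartialOrder P]
    (h : IsComplete P) : CompleteLattice P :=
  letI : SupSet P := ⟨fun S => (h S).choose⟩
  { completeLatticeOfSup P (fun S => (h S).choose_spec) with }

lemma weak_iff_of_complete (P : Type) [PartialOrder P] (h : IsComplete P) : PropertyCWeak P := by
  intro R _
  constructor
  · intro hR
    letI := completeLattice P h
    exact weak_of_complete R hR
  · rintro ⟨φ, ω, h⟩
    exact h.isRetract

lemma propertyC_of_modular (P : Type) [PartialOrder P] (h : IsComplete P) (hm : IsModular P) :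
    PropertyC P := by
  intro R _
  constructor
  · intro hR
    letI := completeLattice P h
    refine commuting_of_modular ?_ R hR
    intro a b c hac
    have := hm a b c (b ⊓ c) (a ⊔ (b ⊓ c)) (a ⊔ b) ((a ⊔ b) ⊓ c) hac isGLB_pair isLUB_pair
      isLUB_pair isGLB_pair
    exact this.ge
  · rintro ⟨φ, ω, -, h⟩
    exact h.isRetract

lemma weak_of_propertyC {P : Type} [PartialOrder P] (h : PropertyC P) : PropertyCWeak P := by
  intro R hR
  constructor
  · intro h1
    obtain ⟨φ, ω, -, h2⟩ := (h R hR).mp h1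
    exact ⟨φ, ω, h2⟩
  · rintro ⟨φ, ω, h⟩
    exact h.isRetract

/-! ### Ordered sets without infinite chains -/

section ChainFinite

variable {P : Type} [PartialOrder P]

lemma singleton_retract (p : P) : IsRetract ({p} : Set P) := by
  refine ⟨fun _ => p, ⟨fun _ _ _ => le_rfl, fun _ => rfl⟩, ?_⟩
  ext x
  constructor
  · rintro rfl
    exact ⟨x, rfl⟩
  · rintro ⟨_, rfl⟩
    rfl

lemma exists_bot [Nonempty P] [WellFoundedLT P] (h : PropertyCWeak P) : ∃ b : P, ∀ x, b ≤ x := by
  obtain ⟨m, -, hm⟩ := (wellFounded_lt (α := P)).has_min Set.univ Set.univ_nonempty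
  refine ⟨m, fun x => ?_⟩
  obtain ⟨φ, ω, ⟨⟨hφ1, hφ2⟩, hφ3⟩, ⟨⟨hω1, hω2⟩, hω3⟩, e1, e2, e3⟩ :=
    (h _ (Set.singleton_nonempty m)).mp (singleton_retract m)
  have h1 : φ (ω x) = m := by
    have : φ (ω x) ∈ ({m} : Set P) := by rw [e1]; exact ⟨x, rfl⟩
    exact this
  have h2 : ω x ≤ m := by rw [← h1]; exact hφ3 _
  have h3 : ω x = m := by
    by_contra hne
    exact hm _ (Set.mem_univ _) (lt_of_le_of_ne h2 hne)
  rw [← h3]
  exact hω3 x

lemma exists_top [Nonempty P] [WellFoundedGT P] (h : PropertyCWeak P) : ∃ t : P, ∀ x, x ≤ t := by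
  obtain ⟨m, -, hm⟩ := (wellFounded_gt (α := P)).has_min Set.univ Set.univ_nonempty
  refine ⟨m, fun x => ?_⟩
  obtain ⟨φ, ω, ⟨⟨hφ1, hφ2⟩, hφ3⟩, ⟨⟨hω1, hω2⟩, hω3⟩, e1, e2, e3⟩ :=
    (h _ (Set.singleton_nonempty m)).mp (singleton_retract m)
  have h1 : ω (φ x) = m := by
    have : ω (φ x) ∈ ({m} : Set P) := by rw [e2]; exact ⟨x, rfl⟩
    exact this
  have h2 : m ≤ φ x := by rw [← h1]; exact hω3 _
  have h3 : φ x = m := by
    by_contra hne
    exact hm _ (Set.mem_univ _) (lt_of_le_of_ne h2 (Ne.symm hne))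
  rw [← h3]
  exact hφ3 x

/-- minimal upper bounds are least upper bounds -/
lemma isLUB_of_minimal [WellFoundedLT P] (h : PropertyCWeak P) (o : P) (ho : ∀ x, o ≤ x)
    (a b c : P) (hac : a ≤ c) (hbc : b ≤ c) (hc : ∀ x, a ≤ x → b ≤ x → x ≤ c → x = c) :
    IsLUB {a, b} c := by
  classical
  refine ⟨?_, ?_⟩
  · rintro x (rfl | rfl)
    · exact hac
    · exact hbc
  intro u hu
  have hau : a ≤ u := hu (Or.inl rfl)
  have hbu : b ≤ u := hu (Or.inr rfl)
  -- the comparable cases
  by_cases hab : a ≤ b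
  · have := hc b hab le_rfl hbc
    rw [← this]
    exact hbu
  by_cases hba : b ≤ a
  · have := hc a le_rfl hba hac
    rw [← this]
    exact hau
  -- a minimal upper bound below `u`
  obtain ⟨d, ⟨had, hbd, hdu⟩, hd⟩ := (wellFounded_lt (α := P)).has_min
    {x | a ≤ x ∧ b ≤ x ∧ x ≤ u} ⟨u, hau, hbu, le_rfl⟩
  by_contra hcu
  have hdc : ¬ d ≤ c := fun h' => hcu (hc d had hbd h' ▸ hdu)
  -- the retract
  have hret : IsRetract ({o, a, b, c} : Set P) := by
    let r : P → P := fun x => if a ≤ x ∧ b ≤ x then c else if a ≤ x then a else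
      if b ≤ x then b else o
    have ro : r o = o := by
      have h1 : ¬ a ≤ o := fun h' => hab (h'.trans (ho b))
      have h2 : ¬ b ≤ o := fun h' => hba (h'.trans (ho a))
      simp only [r, h1, h2, false_and, if_false]
    have ra : r a = a := by
      simp only [r, hba, and_false, if_false, le_refl, if_true]
    have rb : r b = b := by
      simp only [r, hab, false_and, if_false, le_refl, if_true]
    have rc : r c = c := by
      simp only [r, hac, hbc, and_self, if_true]
    have hval : ∀ x, r x = o ∨ r x = a ∨ r x = b ∨ r x = c := by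
      intro x
      simp only [r]
      split_ifs <;> simp
    refine ⟨r, ⟨?_, ?_⟩, ?_⟩
    · intro x y hxy
      by_cases h1 : a ≤ x <;> by_cases h2 : b ≤ x
      · have h3 := h1.trans hxy
        have h4 := h2.trans hxy
        simp only [r, h1, h2, h3, h4, and_self, if_true, le_refl]
      · have h3 := h1.trans hxy
        by_cases h4 : b ≤ y
        · simp only [r, h1, h2, h3, h4, and_self, and_false, if_true, if_false, hac]
        · simp only [r, h1, h2, h3, h4, and_false, if_true, if_false, le_refl]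
      · have h4 := h2.trans hxy
        by_cases h3 : a ≤ y
        · simp only [r, h1, h2, h3, h4, and_self, false_and, if_true, if_false, hbc]
        · simp only [r, h1, h2, h3, h4, false_and, if_true, if_false, le_refl]
      · have : r x = o := by simp only [r, h1, h2, false_and, if_false]
        rw [this]
        exact ho _
    · intro x
      rcases hval x with h1 | h1 | h1 | h1 <;> rw [h1]
      · exact ro
      · exact ra
      · exact rb
      · exact rc
    · ext x
      constructor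
      · rintro (rfl | rfl | rfl | rfl)
        · exact ⟨_, ro⟩
        · exact ⟨_, ra⟩
        · exact ⟨_, rb⟩
        · exact ⟨_, rc⟩
      · rintro ⟨z, rfl⟩
        exact hval z
  obtain ⟨φ, ω, ⟨⟨hφ1, hφ2⟩, hφ3⟩, ⟨⟨hω1, hω2⟩, hω3⟩, e1, e2, e3⟩ :=
    (h _ ⟨o, Or.inl rfl⟩).mp hret
  have hωfix : ∀ x ∈ ({o, a, b, c} : Set P), ω x = x := by
    intro x hx
    rw [e3] at hx
    obtain ⟨-, ⟨v, hv⟩⟩ := hx
    rw [← hv, hω2]
  have h1 : a ≤ ω d := by
    have := hω1 had
    rwa [hωfix a (by simp)] at this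
  have h2 : b ≤ ω d := by
    have := hω1 hbd
    rwa [hωfix b (by simp)] at this
  have h3 : ω d = d := by
    by_contra hne
    exact hd (ω d) ⟨h1, h2, (hω3 d).trans hdu⟩ (lt_of_le_of_ne (hω3 d) hne)
  have h4 : φ d ∈ ({o, a, b, c} : Set P) := by
    rw [e1]
    exact ⟨d, by simp only [Function.comp, h3]⟩
  have h5 : d ≤ φ d := hφ3 d
  rcases h4 with h4 | h4 | h4 | h4
  · rw [h4] at h5
    exact hdc (h5.trans (ho c))
  · rw [h4] at h5
    exact hba (hbd.trans h5)
  · rw [h4] at h5
    exact hab (had.trans h5)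
  · have h4 : φ d = c := h4
    rw [h4] at h5
    exact hdc h5

/-- A nonempty ordered set without infinite chains with the weak property is a complete lattice. -/
lemma isComplete_of_weak [Nonempty P] [WellFoundedLT P] [WellFoundedGT P]
    (h : PropertyCWeak P) : IsComplete P := by
  classical
  obtain ⟨o, ho⟩ := exists_bot h
  obtain ⟨t, ht⟩ := exists_top h
  have hjoin : ∀ a b : P, ∃ c, IsLUB {a, b} c := by
    intro a b
    obtain ⟨c, ⟨hac, hbc⟩, hc⟩ := (wellFounded_lt (α := P)).has_min
      {x | a ≤ x ∧ b ≤ x} ⟨t, ht a, ht b⟩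
    refine ⟨c, isLUB_of_minimal h o ho a b c hac hbc ?_⟩
    intro x hax hbx hxc
    by_contra hne
    exact hc x ⟨hax, hbx⟩ (lt_of_le_of_ne hxc hne)
  intro S
  obtain ⟨s, ⟨T, hTS, hT⟩, hs⟩ := (wellFounded_gt (α := P)).has_min
    {x | ∃ T : Set P, T ⊆ S ∧ IsLUB T x} ⟨o, ∅, Set.empty_subset _,
      isLUB_empty_iff.mpr fun x => ho x⟩
  refine ⟨s, ?_, ?_⟩
  · intro x hx
    obtain ⟨c, hc⟩ := hjoin s x
    have h1 : IsLUB (T ∪ {x}) c := by
      constructor
      · rintro y (hy | hy)
        · exact (hT.1 hy).trans (hc.1 (Or.inl rfl))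
        · rw [Set.mem_singleton_iff] at hy
          rw [hy]
          exact hc.1 (Or.inr rfl)
      · intro u hu
        apply hc.2
        rintro y (rfl | rfl)
        · exact hT.2 fun z hz => hu (Or.inl hz)
        · exact hu (Or.inr rfl)
    have h2 : s ≤ c := hc.1 (Or.inl rfl)
    have h3 : x ≤ c := hc.1 (Or.inr rfl)
    by_contra hne
    have h4 : s ≠ c := by
      rintro rfl
      exact hne h3
    exact hs c ⟨T ∪ {x}, Set.union_subset hTS (Set.singleton_subset_iff.mpr hx), h1⟩
      (lt_of_le_of_ne h2 h4)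
  · intro u hu
    exact hT.2 fun z hz => hu (hTS hz)

end ChainFinite

/-- (1) A complete lattice has property (C) if and only if it is modular.
(2) Every ordered set with property (C) satisfies the modular law.
(3) A nonempty ordered set without infinite chains (in particular, a nonempty finite ordered set)
has property (C) if and only if it is a complete modular lattice.
(4) If the operators are not required to commute, then every complete lattice has the property, and a
nonempty ordered set without infinite chains has it if and only if it is a complete lattice. -/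
theorem result :
    (∀ (P : Type) [PartialOrder P], IsComplete P → (PropertyC P ↔ IsModular P)) ∧
    (∀ (P : Type) [PartialOrder P], PropertyC P → IsModular P) ∧
    (∀ (P : Type) [PartialOrder P] [Nonempty P] [WellFoundedLT P] [WellFoundedGT P],
      PropertyC P ↔ IsComplete P ∧ IsModular P) ∧
    (∀ (P : Type) [PartialOrder P], IsComplete P → PropertyCWeak P) ∧
    (∀ (P : Type) [PartialOrder P] [Nonempty P] [WellFoundedLT P] [WellFoundedGT P],
      PropertyCWeak P ↔ IsComplete P) := by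
  refine ⟨?_, ?_, ?_, ?_, ?_⟩
  · intro P _ h
    exact ⟨isModular_of_propertyC, propertyC_of_modular P h⟩
  · intro P _ h
    exact isModular_of_propertyC h
  · intro P _ _ _ _
    constructor
    · intro h
      exact ⟨isComplete_of_weak (weak_of_propertyC h), isModular_of_propertyC h⟩
    · rintro ⟨h1, h2⟩
      exact propertyC_of_modular P h1 h2
  · intro P _ h
    exact weak_iff_of_complete P h
  · intro P _ _ _ _
    exact ⟨isComplete_of_weak, weak_iff_of_complete P⟩

end Pool.Agent.Results.MP_017791_co.ModularLattices
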